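import Pool.Agent.H32.SQ.Df

set_option autoImplicit false

namespace Pool.Agent.H32.SQ

open Pool.Agent.H32.IP

/- (1) pigeonhole: `N = m * |P| + 1` (`Fintype.exists_lt_card_fiber_of_mul_lt_card` or similar, then an injection of
`Fin m` into the fibre). (2) if every colour is used at most `s` times by the `r * s` elements, the number of used colours
is at least `r` (`s ≥ 1`), so at most one of the `r + 1` colours is not used. (3) `q * s` elements, `q` colours: if all
fibres had fewer than `s` elements, there would be fewer than `q s` elements (`s = 0` is trivial). -/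

theorem pattern {P : Type} [Fintype P] (m : ℕ) : ∃ N : ℕ, 1 ≤ N ∧ ∀ pat : Fin N → P,
    ∃ (g : Fin m → Fin N) (p : P), Function.Injective g ∧ ∀ j, pat (g j) = p := by
  classical
  refine ⟨Fintype.card P * m + 1, by omega, fun pat => ?_⟩
  obtain ⟨p, hp⟩ := Fintype.exists_lt_card_fiber_of_mul_lt_card (f := pat) (n := m)
    (by rw [Fintype.card_fin]; omega)
  set s := Finset.univ.filter (fun x => pat x = p) with hs
  refine ⟨fun j => s.orderEmbOfFin rfl (Fin.castLE hp.le j), p, ?_, fun j => ?_⟩
  · intro a b hab
    have h1 := (s.orderEmbOfFin rfl).injective hab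
    exact Fin.castLE_injective hp.le h1
  · have h1 := s.orderEmbOfFin_mem rfl (Fin.castLE hp.le j)
    exact (Finset.mem_filter.1 h1).2

theorem missing_unique (r s : ℕ) (hs : 1 ≤ s) (A : Fin r × Fin s → Fin (r + 1))
    (hA : ∀ i, (Finset.univ.filter (fun u => A u = i)).card ≤ s) (i j : Fin (r + 1))
    (hi : ∀ u, A u ≠ i) (hj : ∀ u, A u ≠ j) : i = j := by
  by_contra hne
  have hcard : (Finset.univ : Finset (Fin r × Fin s)).card = r * s := by
    rw [Finset.card_univ, Fintype.card_prod, Fintype.card_fin, Fintype.card_fin]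
  have h1 := Finset.card_eq_sum_card_fiberwise (f := A) (s := Finset.univ)
    (t := (Finset.univ.erase i).erase j) (fun u _ => by
      rw [Finset.mem_coe, Finset.mem_erase, Finset.mem_erase]
      exact ⟨hj u, hi u, Finset.mem_univ _⟩)
  have h2 : ∑ k ∈ (Finset.univ.erase i).erase j, (Finset.univ.filter (fun u => A u = k)).card ≤
      ((Finset.univ.erase i).erase j).card * s := by
    refine (Finset.sum_le_sum fun k _ => hA k).trans ?_
    rw [Finset.sum_const, smul_eq_mul]
  have h3 : ((Finset.univ.erase i).erase j : Finset (Fin (r + 1))).card = r - 1 := by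
    rw [Finset.card_erase_of_mem, Finset.card_erase_of_mem (Finset.mem_univ i), Finset.card_univ,
      Fintype.card_fin]
    · omega
    · rw [Finset.mem_erase]
      exact ⟨fun h => hne h.symm, Finset.mem_univ _⟩
  rw [hcard] at h1
  rw [h3] at h2
  have hr : 1 ≤ r := by
    by_contra hr
    have hr0 : r = 0 := by omega
    subst hr0
    apply hne
    apply Fin.ext
    have h5 := i.isLt
    have h6 := j.isLt
    omega
  obtain ⟨r', rfl⟩ : ∃ r', r = r' + 1 := ⟨r - 1, by omega⟩
  have h4 : (r' + 1) * s ≤ (r' + 1 - 1) * s := h1.le.trans h2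
  rw [Nat.add_sub_cancel, Nat.add_mul, Nat.one_mul] at h4
  omega

theorem big_fibre (q s : ℕ) (hq : 1 ≤ q) (A : Fin q × Fin s → Fin q) :
    ∃ i, s ≤ (Finset.univ.filter (fun u => A u = i)).card := by
  by_contra hcon
  push Not at hcon
  have hcard : (Finset.univ : Finset (Fin q × Fin s)).card = q * s := by
    rw [Finset.card_univ, Fintype.card_prod, Fintype.card_fin, Fintype.card_fin]
  have h1 := Finset.card_eq_sum_card_fiberwise (f := A) (s := Finset.univ)
    (t := Finset.univ) (fun u _ => Finset.mem_coe.2 (Finset.mem_univ _))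
  have hne : (Finset.univ : Finset (Fin q)).Nonempty := ⟨⟨0, by omega⟩, Finset.mem_univ _⟩
  have h2 : ∑ k ∈ (Finset.univ : Finset (Fin q)), (Finset.univ.filter (fun u => A u = k)).card <
      ∑ _k ∈ (Finset.univ : Finset (Fin q)), s :=
    Finset.sum_lt_sum_of_nonempty hne fun k _ => hcon k
  rw [Finset.sum_const, Finset.card_univ, Fintype.card_fin, smul_eq_mul] at h2
  rw [hcard] at h1
  omega

end Pool.Agent.H32.SQ
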