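import Pool.Agent.H32.SQ.Df

set_option autoImplicit false

namespace Pool.Agent.H32.SQ

open Pool.Agent.H32.IP

/- (1) `f` maps the side `S` of `T` (`S.card ≤ U.card`) injectively into `U` (hub vertices) and the other vertices `w`
injectively to the vertices `inr (g j, x)` (`|W| ≤ m`); all edges of `T` go between `S` and its complement, use `hc` for the
two orders. -/

theorem mono_side {V W : Type} [Fintype W] (r s N m : ℕ) (B : SimpleGraph V) (T : SimpleGraph W) {q : ℕ}
    (c : ((Fin r × Fin s) ⊕ (Fin N × V)) → ((Fin r × Fin s) ⊕ (Fin N × V)) → Fin q)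
    (hc : ∀ a b, c a b = c b a) (g : Fin m → Fin N) (hg : Function.Injective g)
    (hm : Fintype.card W ≤ m) (x : V) (i : Fin q) (U : Finset (Fin r × Fin s)) (hT : Side T U.card)
    (hU : ∀ u ∈ U, ∀ j, c (Sum.inl u) (Sum.inr (g j, x)) = i) : Mono (gd r s N B) c T i := by
  classical
  obtain ⟨S, hS, hST⟩ := hT
  obtain ⟨e1⟩ : Nonempty (S ↪ U) := by
    apply Function.Embedding.nonempty_of_card_le
    rw [Fintype.card_coe, Fintype.card_coe]
    exact hS
  obtain ⟨e2⟩ : Nonempty (W ↪ Fin m) := by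
    apply Function.Embedding.nonempty_of_card_le
    rw [Fintype.card_fin]
    exact hm
  obtain ⟨f, hf1, hf2⟩ : ∃ f : W → ((Fin r × Fin s) ⊕ (Fin N × V)),
      (∀ w (h : w ∈ S), f w = Sum.inl (e1 ⟨w, h⟩).1) ∧
      (∀ w, w ∉ S → f w = Sum.inr (g (e2 w), x)) := by
    refine ⟨fun w => if h : w ∈ S then Sum.inl (e1 ⟨w, h⟩).1 else Sum.inr (g (e2 w), x), ?_, ?_⟩
    · intro w h
      simp [h]
    · intro w h
      simp [h]
  refine ⟨f, ?_, ?_, ?_⟩
  · intro a b hab
    by_cases ha : a ∈ S <;> by_cases hb : b ∈ S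
    · rw [hf1 a ha, hf1 b hb] at hab
      have h1 := Subtype.ext (Sum.inl.inj hab)
      have h2 := e1.injective h1
      exact congrArg Subtype.val h2
    · rw [hf1 a ha, hf2 b hb] at hab
      exact absurd hab Sum.inl_ne_inr
    · rw [hf2 a ha, hf1 b hb] at hab
      exact absurd hab Sum.inr_ne_inl
    · rw [hf2 a ha, hf2 b hb] at hab
      have h1 := (Prod.mk.inj (Sum.inr.inj hab)).1
      exact e2.injective (hg h1)
  · intro a b hab
    by_cases ha : a ∈ S
    · rw [hf1 a ha, hf2 b ((hST a b hab).1 ha)]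
      trivial
    · have hb : b ∈ S := by
        by_contra hb
        exact ha ((hST a b hab).2 hb)
      rw [hf2 a ha, hf1 b hb]
      trivial
  · intro a b hab
    by_cases ha : a ∈ S
    · rw [hf1 a ha, hf2 b ((hST a b hab).1 ha)]
      exact hU _ (e1 ⟨a, ha⟩).2 _
    · have hb : b ∈ S := by
        by_contra hb
        exact ha ((hST a b hab).2 hb)
      rw [hf2 a ha, hf1 b hb, hc]
      exact hU _ (e1 ⟨b, hb⟩).2 _

/- (2) `T` embeds in the spider with `M ≤ m` legs; map the centre to the hub vertex `u`, `(j, false)` to `inr (g j, x)`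
and `(j, true)` to `inr (g j, y)` (`x ≠ y` as `B.Adj x y`). -/

theorem mono_spider {V W : Type} (r s N m M : ℕ) (B : SimpleGraph V) (T : SimpleGraph W) {q : ℕ}
    (c : ((Fin r × Fin s) ⊕ (Fin N × V)) → ((Fin r × Fin s) ⊕ (Fin N × V)) → Fin q)
    (hc : ∀ a b, c a b = c b a) (g : Fin m → Fin N) (hg : Function.Injective g) (hm : M ≤ m)
    (hT : Emb T (spider M)) (x y : V) (hxy : B.Adj x y) (i : Fin q) (u : Fin r × Fin s)
    (h1 : ∀ j, c (Sum.inl u) (Sum.inr (g j, x)) = i)
    (h2 : ∀ j, c (Sum.inr (g j, x)) (Sum.inr (g j, y)) = i) : Mono (gd r s N B) c T i := by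
  obtain ⟨f, hf, hfT⟩ := hT
  have hxy' : x ≠ y := hxy.ne
  obtain ⟨F, hF0, hF1, hF2⟩ : ∃ F : Option (Fin M × Bool) → ((Fin r × Fin s) ⊕ (Fin N × V)),
      F none = Sum.inl u ∧ (∀ j, F (some (j, false)) = Sum.inr (g (Fin.castLE hm j), x)) ∧
      ∀ j, F (some (j, true)) = Sum.inr (g (Fin.castLE hm j), y) :=
    ⟨fun o => match o with
      | none => Sum.inl u
      | some (j, false) => Sum.inr (g (Fin.castLE hm j), x)
      | some (j, true) => Sum.inr (g (Fin.castLE hm j), y), rfl, fun _ => rfl, fun _ => rfl⟩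
  have hinj : Function.Injective F := by
    have key : ∀ j j' : Fin M, g (Fin.castLE hm j) = g (Fin.castLE hm j') → j = j' := by
      intro j j' h
      have := hg h
      exact Fin.castLE_injective hm this
    rintro (_ | ⟨j, _ | _⟩) (_ | ⟨j', _ | _⟩) h
    · rfl
    · rw [hF0, hF1] at h; exact absurd h Sum.inl_ne_inr
    · rw [hF0, hF2] at h; exact absurd h Sum.inl_ne_inr
    · rw [hF0, hF1] at h; exact absurd h Sum.inr_ne_inl
    · rw [hF1, hF1] at h
      rw [key j j' (Prod.mk.inj (Sum.inr.inj h)).1]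
    · rw [hF1, hF2] at h
      exact absurd (Prod.mk.inj (Sum.inr.inj h)).2 hxy'
    · rw [hF0, hF2] at h; exact absurd h Sum.inr_ne_inl
    · rw [hF1, hF2] at h
      exact absurd (Prod.mk.inj (Sum.inr.inj h)).2.symm hxy'
    · rw [hF2, hF2] at h
      rw [key j j' (Prod.mk.inj (Sum.inr.inj h)).1]
  have hadj : ∀ a b, (spider M).Adj a b → (gd r s N B).Adj (F a) (F b) ∧ c (F a) (F b) = i := by
    rintro (_ | ⟨j, _ | _⟩) (_ | ⟨j', _ | _⟩) h
    · exact absurd h (by intro h; exact h)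
    · rw [hF0, hF1]
      exact ⟨trivial, h1 _⟩
    · exact absurd (show true = false from h) (by decide)
    · rw [hF0, hF1, hc]
      exact ⟨trivial, h1 _⟩
    · exact absurd rfl h.2
    · obtain ⟨h3, -⟩ := h
      have h3' : j = j' := h3
      subst h3'
      rw [hF1, hF2]
      exact ⟨⟨rfl, hxy⟩, h2 _⟩
    · exact absurd (show true = false from h) (by decide)
    · obtain ⟨h3, -⟩ := h
      have h3' : j = j' := h3
      subst h3'
      rw [hF1, hF2, hc]
      exact ⟨⟨rfl, hxy.symm⟩, h2 _⟩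
    · exact absurd rfl h.2
  exact ⟨F ∘ f, hinj.comp hf, fun a b hab => (hadj _ _ (hfT a b hab)).1,
    fun a b hab => (hadj _ _ (hfT a b hab)).2⟩

/- (3) one copy of `B` all of whose edges have colour `i`. -/

theorem mono_copy {V W : Type} (r s N : ℕ) (B : SimpleGraph V) (T : SimpleGraph W) {q : ℕ}
    (c : ((Fin r × Fin s) ⊕ (Fin N × V)) → ((Fin r × Fin s) ⊕ (Fin N × V)) → Fin q)
    (hT : Emb T B) (n : Fin N) (i : Fin q)
    (h : ∀ x y, B.Adj x y → c (Sum.inr (n, x)) (Sum.inr (n, y)) = i) : Mono (gd r s N B) c T i := by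
  obtain ⟨f, hf, hfT⟩ := hT
  refine ⟨fun w => Sum.inr (n, f w), ?_, ?_, ?_⟩
  · intro a b hab
    exact hf (Prod.mk.inj (Sum.inr.inj hab)).2
  · intro a b hab
    exact ⟨rfl, hfT a b hab⟩
  · intro a b hab
    exact h _ _ (hfT a b hab)

end Pool.Agent.H32.SQ
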