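import Pool.Agent.H32.SQ.A1
import Pool.Agent.H32.SQ.A2

set_option autoImplicit false

namespace Pool.Agent.H32.SQ

open Pool.Agent.H32.IP

/- Proof: let `m = max M (|W|) + 1` and `P` the type of the pairs of a colouring of the hub - `V` pairs and a colouring
`V → V → Fin (r + 1)`; `N` from `pattern`. Given `c`, `pattern` gives `g : Fin m → Fin N` such that
`c (inl u) (inr (g j, x)) = A u x` and `c (inr (g j, x)) (inr (g j, y)) = C x y` for all `j`. Suppose there is no
monochromatic `T`. Fix `x`. By `mono_side` with `U` the set of `u` with `A u x = i` (if it had at least `s + 1`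
elements, take a subset with exactly `s + 1` elements) each colour occurs at most `s` times among the `A u x`. By `mono_spider`
a colour that occurs among the `A u x` is not the colour `C x y` of an edge `x y` of `B`. So the colours of all edges at
`x` are missing among the `A u x`, and by `missing_unique` they are all equal. As `B` is connected (walk induction / `C` is symmetric
because `c` is), all edges of `B` have the same colour `i`; `mono_copy` for the copy `g 0`. Contradiction. -/

theorem gd_arrows {V W : Type} [Fintype V] [Fintype W] (r s M : ℕ) (hs : 1 ≤ s) (T : SimpleGraph W)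
    (hT : Emb T (spider M)) (hT2 : Side T (s + 1)) (B : SimpleGraph V) (hB : B.Connected)
    (hE : ∃ x y, B.Adj x y) (hTB : Emb T B) : ∃ N : ℕ, Arrows (gd r s N B) T (r + 1) := by
  classical
  obtain ⟨N, hN, hpat⟩ := pattern (P := ((Fin r × Fin s) → V → Fin (r + 1)) × (V → V → Fin (r + 1)))
    (max M (Fintype.card W) + 1)
  refine ⟨N, ?_⟩
  intro c hc
  by_contra hcon
  have hno : ∀ i, ¬ Mono (gd r s N B) c T i := by
    rintro i ⟨f, h1, h2, h3⟩
    exact hcon ⟨f, h1, h2, i, h3⟩
  obtain ⟨g, p, hg, hp⟩ := hpat (fun n =>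
    (fun u x => c (Sum.inl u) (Sum.inr (n, x)), fun x y => c (Sum.inr (n, x)) (Sum.inr (n, y))))
  have hA : ∀ j u x, c (Sum.inl u) (Sum.inr (g j, x)) = p.1 u x := by
    intro j u x
    rw [← hp j]
  have hC : ∀ j x y, c (Sum.inr (g j, x)) (Sum.inr (g j, y)) = p.2 x y := by
    intro j x y
    rw [← hp j]
  have hMm : M ≤ max M (Fintype.card W) + 1 := (le_max_left _ _).trans (Nat.le_succ _)
  have hWm : Fintype.card W ≤ max M (Fintype.card W) + 1 := (le_max_right _ _).trans (Nat.le_succ _)
  have ha : ∀ x i, (Finset.univ.filter (fun u => p.1 u x = i)).card ≤ s := by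
    intro x i
    by_contra hlt
    obtain ⟨U, hU1, hU2⟩ := Finset.exists_subset_card_eq
      (show s + 1 ≤ (Finset.univ.filter (fun u => p.1 u x = i)).card by omega)
    refine hno i (mono_side r s N _ B T c hc g hg hWm x i U (by rw [hU2]; exact hT2) ?_)
    intro u hu j
    rw [hA]
    exact (Finset.mem_filter.1 (hU1 hu)).2
  have hb : ∀ x y, B.Adj x y → ∀ u, p.1 u x ≠ p.2 x y := by
    intro x y hxy u he
    refine hno (p.2 x y) (mono_spider r s N _ M B T c hc g hg hMm hT x y hxy _ u ?_ ?_)
    · intro j
      rw [hA, he]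
    · intro j
      rw [hC]
  have hcc : ∀ x y y', B.Adj x y → B.Adj x y' → p.2 x y = p.2 x y' := fun x y y' h h' =>
    missing_unique r s hs (fun u => p.1 u x) (ha x) _ _ (hb x y h) (hb x y' h')
  have hsym : ∀ x y, p.2 x y = p.2 y x := by
    intro x y
    rw [← hC 0 x y, ← hC 0 y x, hc]
  obtain ⟨x₀, y₀, h₀⟩ := hE
  have step : ∀ {a b : V}, B.Walk a b → (∀ y, B.Adj a y → p.2 a y = p.2 x₀ y₀) →
      ∀ y, B.Adj b y → p.2 b y = p.2 x₀ y₀ := by
    intro a b w
    induction w with
    | nil => exact id
    | cons h _ ih =>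
      intro hq
      refine ih ?_
      intro y hy
      rw [hcc _ y _ hy h.symm, hsym]
      exact hq _ h
  have hall : ∀ x y, B.Adj x y → p.2 x y = p.2 x₀ y₀ := by
    intro x y hxy
    obtain ⟨w⟩ := hB.preconnected x₀ x
    exact step w (fun y hy => hcc x₀ y y₀ hy h₀) y hxy
  exact hno (p.2 x₀ y₀) (mono_copy r s N B T c hTB (g 0) _ (fun x y hxy => by rw [hC]; exact hall x y hxy))

end Pool.Agent.H32.SQ
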