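import Pool.Agent.H32.SQ.Df

set_option autoImplicit false

namespace Pool.Agent.H32.SQ

open Pool.Agent.H32.IP

/- Proof: colour the edges at a hub vertex `(j, _)` with `j.succ`, all other pairs with `0` (compare
`Pool/Agent/H32/IP/GDa.lean`). A copy of `H` of colour `j.succ`: each of its edges joins a hub vertex of group `j` and a
vertex `inr _`, so the set of the `w` with `f w` a hub vertex of group `j` (at most `s` elements) shows `Side H s`.
A copy of colour `0`: if `H` has no edge, `Side H s` with `S = ∅`; otherwise all edges join vertices of the same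
copy of `B`, so by connectedness all `f w` are `inr (n, _)` with the same `n`, an embedding of `H` in `B`. -/

/-- the colouring: the edges at a hub vertex of group `j` have colour `j.succ`, all other pairs colour `0` -/
def gdcol {V : Type} (r s N : ℕ) (x y : (Fin r × Fin s) ⊕ (Fin N × V)) : Fin (r + 1) :=
  match x, y with
  | Sum.inl _, Sum.inl _ => 0
  | Sum.inl a, Sum.inr _ => a.1.succ
  | Sum.inr _, Sum.inl b => b.1.succ
  | Sum.inr _, Sum.inr _ => 0

theorem gdcol_symm {V : Type} (r s N : ℕ) (x y : (Fin r × Fin s) ⊕ (Fin N × V)) :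
    gdcol r s N x y = gdcol r s N y x := by
  rcases x with x | x <;> rcases y with y | y <;> rfl

theorem gdcol_zero {V : Type} {r s N : ℕ} {B : SimpleGraph V}
    {x y : (Fin r × Fin s) ⊕ (Fin N × V)}
    (h1 : (gd r s N B).Adj x y) (h2 : gdcol r s N x y = 0) :
    ∃ n a b, x = Sum.inr (n, a) ∧ y = Sum.inr (n, b) ∧ B.Adj a b := by
  rcases x with x | x <;> rcases y with y | y
  · exact absurd h1 id
  · exact absurd h2 (Fin.succ_ne_zero _)
  · exact absurd h2 (Fin.succ_ne_zero _)
  · obtain ⟨n, a⟩ := x
    obtain ⟨n', b⟩ := y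
    have h3 : n = n' := h1.1
    exact ⟨n, a, b, rfl, by rw [h3], h1.2⟩

theorem gdcol_succ {V : Type} {r s N : ℕ} {B : SimpleGraph V}
    {x y : (Fin r × Fin s) ⊕ (Fin N × V)} {j : Fin r}
    (h1 : (gd r s N B).Adj x y) (h2 : gdcol r s N x y = j.succ) :
    (∃ t z, x = Sum.inl (j, t) ∧ y = Sum.inr z) ∨ ∃ t z, y = Sum.inl (j, t) ∧ x = Sum.inr z := by
  rcases x with x | x <;> rcases y with y | y
  · exact absurd h1 id
  · obtain ⟨a, b⟩ := x
    have h3 : a = j := Fin.succ_injective _ h2
    exact Or.inl ⟨b, y, by rw [h3], rfl⟩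
  · obtain ⟨a, b⟩ := y
    have h3 : a = j := Fin.succ_injective _ h2
    exact Or.inr ⟨b, x, by rw [h3], rfl⟩
  · exact absurd h2.symm (Fin.succ_ne_zero _)

theorem gd_not {V W : Type} [Fintype W] (r s N : ℕ) (B : SimpleGraph V) (H : SimpleGraph W)
    (hc : H.Connected) (hs : ¬ Side H s) (hB : ¬ Emb H B) : ¬ Arrows (gd r s N B) H (r + 1) := by
  classical
  intro hA
  obtain ⟨f, hinj, hhom, i, hi⟩ := hA (gdcol r s N) (gdcol_symm r s N)
  refine Fin.cases ?_ ?_ i hi
  · intro h0
    have hedge : ∃ u v : W, H.Adj u v := by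
      by_contra hne
      push Not at hne
      exact hs ⟨∅, by simp, fun u v huv => absurd huv (hne u v)⟩
    obtain ⟨u0, v0, huv⟩ := hedge
    obtain ⟨n, a0, b0, ha0, -, -⟩ := gdcol_zero (hhom _ _ huv) (h0 _ _ huv)
    have hall : ∀ w : W, ∃ x, f w = Sum.inr (n, x) := by
      intro w
      obtain ⟨p⟩ : H.Reachable w u0 := hc.preconnected w u0
      induction p with
      | nil => exact ⟨a0, ha0⟩
      | cons h p ih =>
        obtain ⟨x, hx⟩ := ih huv ha0
        obtain ⟨n', x', y', h3, h4, -⟩ := gdcol_zero (hhom _ _ h) (h0 _ _ h)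
        rw [hx] at h4
        have h5 : (n, x) = (n', y') := Sum.inr.inj h4
        have h6 : n = n' := congrArg Prod.fst h5
        exact ⟨x', by rw [h3, h6]⟩
    choose g hg using hall
    refine hB ⟨g, ?_, ?_⟩
    · intro a b hab
      apply hinj
      rw [hg a, hg b, hab]
    · intro u v huv'
      obtain ⟨n', x', y', h3, h4, h5⟩ := gdcol_zero (hhom _ _ huv') (h0 _ _ huv')
      rw [hg u] at h3
      rw [hg v] at h4
      have h6 : g u = x' := congrArg Prod.snd (Sum.inr.inj h3)
      have h7 : g v = y' := congrArg Prod.snd (Sum.inr.inj h4)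
      rw [h6, h7]
      exact h5
  · intro j hj
    refine hs ⟨Finset.univ.filter (fun w => ∃ t, f w = Sum.inl (j, t)), ?_, ?_⟩
    · have h1 : ∀ w : {w // w ∈ Finset.univ.filter (fun w => ∃ t, f w = Sum.inl (j, t))},
          ∃ t, f w = Sum.inl (j, t) := fun w => (Finset.mem_filter.1 w.2).2
      choose t ht using h1
      have ht_inj : Function.Injective t := by
        intro a b hab
        have e1 := ht a
        have e2 := ht b
        rw [hab] at e1
        exact Subtype.ext (hinj (e1.trans e2.symm))
      have hcard := Fintype.card_le_of_injective _ ht_inj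
      rw [Fintype.card_fin, Fintype.card_coe] at hcard
      exact hcard
    · intro u v huv
      rw [Finset.mem_filter, Finset.mem_filter]
      rcases gdcol_succ (hhom _ _ huv) (hj _ _ huv) with ⟨t, z, h3, h4⟩ | ⟨t, z, h3, h4⟩
      · constructor
        · rintro - ⟨-, t', ht'⟩
          rw [h4] at ht'
          exact Sum.inr_ne_inl ht'
        · intro _
          exact ⟨Finset.mem_univ _, t, h3⟩
      · constructor
        · rintro ⟨-, t', ht'⟩
          rw [h4] at ht'
          exact absurd ht' Sum.inr_ne_inl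
        · intro hcon
          exact absurd ⟨Finset.mem_univ _, t, h3⟩ hcon

end Pool.Agent.H32.SQ
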