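import Pool.Agent.H32.SQ.A1
import Pool.Agent.H32.SQ.A2

set_option autoImplicit false

namespace Pool.Agent.H32.SQ

open Pool.Agent.H32.IP

/- (1) `G = gd q s N (⊥ : SimpleGraph Unit)`, a complete bipartite graph with `q s` hub vertices. `pattern` with
`m = |W|`, `P = (Fin q × Fin s → Fin q)`; `big_fibre` gives a colour `i` with at least `s` hub vertices, take a
subset `U` with exactly `s` elements, `mono_side`. (2) colour the edges at a hub vertex `(j, _)` with `j` (all other
pairs with any colour; `1 ≤ q`): a monochromatic copy of `T` of colour `j`: every edge of `T` goes to an edge of `G`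
of colour `j`, that is between a hub vertex and a vertex `inr _` (there are no other edges); the hub vertex is in group
`j`; so `Side T s`. -/

theorem bip_arrows {W : Type} [Fintype W] (q s : ℕ) (hq : 1 ≤ q) (H : SimpleGraph W)
    (hH : Side H s) : ∃ N : ℕ, Arrows (gd q s N (⊥ : SimpleGraph Unit)) H q := by
  classical
  obtain ⟨N, hN, hpat⟩ := pattern (P := Fin q × Fin s → Fin q) (Fintype.card W)
  refine ⟨N, fun c hc => ?_⟩
  obtain ⟨g, p, hg, hgp⟩ := hpat (fun j u => c (Sum.inl u) (Sum.inr (j, ())))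
  obtain ⟨i, hi⟩ := big_fibre q s hq p
  obtain ⟨U, hU, hUc⟩ := Finset.exists_subset_card_eq hi
  have h := mono_side q s N (Fintype.card W) (⊥ : SimpleGraph Unit) H c hc g hg le_rfl () i U
    (by rw [hUc]; exact hH) (fun u hu j => by
      have h1 := congrFun (hgp j) u
      have h2 := (Finset.mem_filter.1 (hU hu)).2
      exact h1.trans h2)
  obtain ⟨f, hf, h1, h2⟩ := h
  exact ⟨f, hf, h1, i, h2⟩

theorem bip_not {W : Type} [Fintype W] (q s N : ℕ) (hq : 1 ≤ q) (T : SimpleGraph W)
    (hT : ¬ Side T s) : ¬ Arrows (gd q s N (⊥ : SimpleGraph Unit)) T q := by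
  classical
  intro hA
  apply hT
  let c : ((Fin q × Fin s) ⊕ (Fin N × Unit)) → ((Fin q × Fin s) ⊕ (Fin N × Unit)) → Fin q :=
    fun x y => match x, y with
      | Sum.inl u, Sum.inr _ => u.1
      | Sum.inr _, Sum.inl u => u.1
      | Sum.inl _, Sum.inl _ => ⟨0, hq⟩
      | Sum.inr _, Sum.inr _ => ⟨0, hq⟩
  obtain ⟨f, hf, hadj, i, hcol⟩ := hA c (by rintro (a | a) (b | b) <;> rfl)
  have hS : ∀ u v : W, T.Adj u v → ∀ a, f u = Sum.inl a → a.1 = i ∧ ∃ b, f v = Sum.inr b := by
    intro u v huv a ha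
    have h1 := hadj u v huv
    have h2 := hcol u v huv
    rcases hv : f v with b | b
    · rw [ha, hv] at h1
      exact h1.elim
    · rw [ha, hv] at h2
      exact ⟨h2, b, rfl⟩
  have hR : ∀ u v : W, T.Adj u v → ∀ a, f u = Sum.inr a → ∃ b, f v = Sum.inl b := by
    intro u v huv a ha
    have h1 := hadj u v huv
    rcases hv : f v with b | b
    · exact ⟨b, rfl⟩
    · rw [ha, hv] at h1
      exact h1.2.elim
  refine ⟨Finset.univ.filter (fun w => (∃ a, f w = Sum.inl a) ∧ ∃ v, T.Adj w v), ?_,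
    fun u v huv => ?_⟩
  · rw [← Finset.card_image_of_injective _ hf]
    have hsub : (Finset.univ.filter (fun w => (∃ a, f w = Sum.inl a) ∧ ∃ v, T.Adj w v)).image f ⊆
        (Finset.univ : Finset (Fin s)).image (fun a => Sum.inl (i, a)) := by
      intro z hz
      obtain ⟨w, hw, rfl⟩ := Finset.mem_image.1 hz
      obtain ⟨⟨a, ha⟩, v, hv⟩ := (Finset.mem_filter.1 hw).2
      have h1 := (hS w v hv a ha).1
      refine Finset.mem_image.2 ⟨a.2, Finset.mem_univ _, ?_⟩
      rw [ha, ← h1]
    refine (Finset.card_le_card hsub).trans ?_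
    refine Finset.card_image_le.trans ?_
    rw [Finset.card_univ, Fintype.card_fin]
  · simp only [Finset.mem_filter, Finset.mem_univ, true_and]
    constructor
    · rintro ⟨⟨a, ha⟩, -⟩ ⟨⟨b, hb⟩, -⟩
      obtain ⟨b', hb'⟩ := (hS u v huv a ha).2
      rw [hb] at hb'
      cases hb'
    · intro h
      refine ⟨?_, v, huv⟩
      rcases hu : f u with a | a
      · exact ⟨a, rfl⟩
      · exact (h ⟨hR u v huv a hu, u, huv.symm⟩).elim

end Pool.Agent.H32.SQ
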