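import Pool.Agent.H32.SQ.Df

set_option autoImplicit false

namespace Pool.Agent.H32.SQ

open Pool.Agent.H32.IP

/- (1) two finite graphs which embed in each other are isomorphic: the numbers of vertices are equal, so `f : W → V` is
a bijection, and the numbers of edges are equal, so `f` is an isomorphism. (2) `Side` pulls back along embeddings: the
preimage of `S`. (3) the side of the spider: the centre and the vertices `(j, true)`; pull back; it has at most
`M + 1` elements. -/

theorem iso_of_emb {V W : Type} [Fintype V] [Fintype W] (T : SimpleGraph V) (H : SimpleGraph W)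
    (h1 : Emb T H) (h2 : Emb H T) : Nonempty (T ≃g H) := by
  classical
  obtain ⟨f, hf, hfa⟩ := h1
  obtain ⟨g, hg, hga⟩ := h2
  have hc : Fintype.card V = Fintype.card W :=
    le_antisymm (Fintype.card_le_of_injective f hf) (Fintype.card_le_of_injective g hg)
  have hb : Function.Bijective f := (Fintype.bijective_iff_injective_and_card f).2 ⟨hf, hc⟩
  let F : {p : V × V // T.Adj p.1 p.2} → {p : W × W // H.Adj p.1 p.2} :=
    fun p => ⟨(f p.1.1, f p.1.2), hfa _ _ p.2⟩
  let G : {p : W × W // H.Adj p.1 p.2} → {p : V × V // T.Adj p.1 p.2} :=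
    fun p => ⟨(g p.1.1, g p.1.2), hga _ _ p.2⟩
  have hF : Function.Injective F := by
    rintro ⟨⟨a, b⟩, h⟩ ⟨⟨c, d⟩, h'⟩ e
    have e' : (f a, f b) = (f c, f d) := congrArg Subtype.val e
    have e1 : f a = f c := congrArg Prod.fst e'
    have e2 : f b = f d := congrArg Prod.snd e'
    obtain rfl := hf e1
    obtain rfl := hf e2
    rfl
  have hG : Function.Injective G := by
    rintro ⟨⟨a, b⟩, h⟩ ⟨⟨c, d⟩, h'⟩ e
    have e' : (g a, g b) = (g c, g d) := congrArg Subtype.val e
    have e1 : g a = g c := congrArg Prod.fst e'
    have e2 : g b = g d := congrArg Prod.snd e'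
    obtain rfl := hg e1
    obtain rfl := hg e2
    rfl
  have hcard : Fintype.card {p : V × V // T.Adj p.1 p.2} = Fintype.card {p : W × W // H.Adj p.1 p.2} :=
    le_antisymm (Fintype.card_le_of_injective F hF) (Fintype.card_le_of_injective G hG)
  have hFb := (Fintype.bijective_iff_injective_and_card F).2 ⟨hF, hcard⟩
  refine ⟨⟨Equiv.ofBijective f hb, ?_⟩⟩
  intro u v
  constructor
  · intro h
    obtain ⟨⟨⟨a, b⟩, hab⟩, e⟩ := hFb.2 ⟨(f u, f v), h⟩
    have e' : (f a, f b) = (f u, f v) := congrArg Subtype.val e
    have e1 : f a = f u := congrArg Prod.fst e'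
    have e2 : f b = f v := congrArg Prod.snd e'
    obtain rfl := hf e1
    obtain rfl := hf e2
    exact hab
  · exact hfa u v

theorem side_of_emb {V W : Type} [Fintype V] [Fintype W] (T : SimpleGraph V) (H : SimpleGraph W)
    (h : Emb T H) (s : ℕ) (hs : Side H s) : Side T s := by
  classical
  obtain ⟨f, hf, hfa⟩ := h
  obtain ⟨S, hS, hadj⟩ := hs
  refine ⟨Finset.univ.filter (fun v => f v ∈ S), ?_, ?_⟩
  · refine le_trans ?_ hS
    refine Finset.card_le_card_of_injOn f ?_ (hf.injOn)
    intro v hv
    exact (Finset.mem_filter.1 (Finset.mem_coe.1 hv)).2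
  · intro u v huv
    simp only [Finset.mem_filter, Finset.mem_univ, true_and]
    exact hadj (f u) (f v) (hfa u v huv)

theorem side_spider (M : ℕ) : Side (spider M) (M + 1) := by
  classical
  refine ⟨insert none (Finset.univ.image (fun j : Fin M => some (j, true))), ?_, ?_⟩
  · refine (Finset.card_insert_le _ _).trans ?_
    have h := Finset.card_image_le (s := (Finset.univ : Finset (Fin M))) (f := fun j : Fin M => (some (j, true) : Option (Fin M × Bool)))
    rw [Finset.card_univ, Fintype.card_fin] at h
    omega
  · have hmem : ∀ a : Fin M × Bool, (some a ∈ insert none (Finset.univ.image (fun j : Fin M => some (j, true)))) ↔ a.2 = true := by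
      rintro ⟨j, b⟩
      simp only [Finset.mem_insert, Finset.mem_image, Finset.mem_univ, true_and, reduceCtorEq, false_or, Option.some.injEq,
        Prod.mk.injEq]
      constructor
      · rintro ⟨i, -, h⟩
        exact h.symm
      · intro h
        exact ⟨j, rfl, h.symm⟩
    have hnone : (none : Option (Fin M × Bool)) ∈ insert none (Finset.univ.image (fun j : Fin M => some (j, true))) :=
      Finset.mem_insert_self _ _
    intro u v h
    rcases u with _ | a <;> rcases v with _ | b
    · exact absurd h (fun h => h)
    · have h' : b.2 = false := h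
      rw [hmem b, h']
      simp
    · have h' : a.2 = false := h
      rw [hmem a, h']
      simp
    · have h' : a.1 = b.1 ∧ a.2 ≠ b.2 := h
      rw [hmem a, hmem b]
      have h2 := h'.2
      cases ha : a.2 <;> cases hb : b.2 <;> simp_all

end Pool.Agent.H32.SQ
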