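import Pool.Agent.H32.SQ.A6

set_option autoImplicit false

namespace Pool.Agent.H32.SQ

open Pool.Agent.H32.IP

/- Stars. Proof: a connected graph `T` with `Side T 1` is a star: either it has one vertex and no edge, or there is a
vertex `z` (the element of `S`) such that `T.Adj u v` iff exactly one of `u, v` is `z` (connectedness: each other vertex has
a neighbour, which must be `z`). Let `d = |V| - 1`, `d' = |W| - 1`. It is enough that `|V| = |W|` (then any
bijection that maps the centre to the centre is an isomorphism). By symmetry suppose `|V| < |W|`, `d < d'`. If `d = 0`, the graph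
with one vertex arrows `T` and not `H`. If `d ≥ 1`, let `G` be the star with `n = q (d - 1) + 1` leaves, e.g. on
`Option (Fin n)`. `Arrows G T q`: some colour occurs on at least `d` edges at the centre. Not `Arrows G H q`: give the
leaf `a : Fin n` the colour `a % q`: each colour occurs at most `d` times; a monochromatic copy of `H` would
need at least `d' > d` edges of one colour (a star with `|W| ≥ 3` vertices must have its centre at the centre, and if
`|W| = 2`, then `d' = 1`, `d = 0`). -/

theorem star_centre {V : Type} [Fintype V] (T : SimpleGraph V) (hT : T.Connected) (h1 : Side T 1) :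
    ∃ z : V, ∀ u v : V, T.Adj u v ↔ u ≠ v ∧ (u = z ∨ v = z) := by
  classical
  obtain ⟨S, hS, hadj⟩ := h1
  have hne : Nonempty V := hT.nonempty
  rcases Nat.lt_or_ge S.card 1 with h0 | h0
  · have hS0 : S = ∅ := by rw [← Finset.card_eq_zero]; omega
    subst hS0
    have hno : ∀ u v : V, ¬ T.Adj u v := by
      intro u v huv
      have := hadj u v huv
      simp at this
    obtain ⟨z⟩ := hne
    refine ⟨z, fun u v => ⟨fun h => absurd h (hno u v), fun h => ?_⟩⟩
    exfalso
    obtain ⟨p⟩ := hT.preconnected u v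
    cases p with
    | nil => exact h.1 rfl
    | cons hp _ => exact hno _ _ hp
  · obtain ⟨z, rfl⟩ := Finset.card_eq_one.1 (le_antisymm hS h0)
    have hadj' : ∀ u v : V, T.Adj u v → (u = z ↔ v ≠ z) := by
      intro u v huv
      have := hadj u v huv
      simpa using this
    have key : ∀ v : V, v ≠ z → T.Adj v z := by
      intro v hv
      obtain ⟨p⟩ := hT.preconnected v z
      cases p with
      | nil => exact absurd rfl hv
      | @cons _ w _ hp _ =>
        have := hadj' _ _ hp
        have hw : w = z := by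
          by_contra hw
          exact hv (this.2 hw)
        rw [← hw]
        exact hp
    refine ⟨z, fun u v => ⟨fun h => ⟨h.ne, ?_⟩, fun h => ?_⟩⟩
    · by_cases hu : u = z
      · exact Or.inl hu
      · right
        by_contra hv
        exact hu ((hadj' u v h).2 hv)
    · obtain ⟨huv, hu | hv⟩ := h
      · subst hu
        exact (key v (Ne.symm huv)).symm
      · subst hv
        exact key u huv

theorem star_iso_of_card {V W : Type} [Fintype V] [Fintype W] (T : SimpleGraph V) (H : SimpleGraph W) (z : V)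
    (hz : ∀ u v : V, T.Adj u v ↔ u ≠ v ∧ (u = z ∨ v = z)) (z' : W)
    (hz' : ∀ u v : W, H.Adj u v ↔ u ≠ v ∧ (u = z' ∨ v = z')) (hc : Fintype.card V = Fintype.card W) :
    Nonempty (T ≃g H) := by
  classical
  obtain ⟨e0⟩ : Nonempty (V ≃ W) := ⟨Fintype.equivOfCardEq hc⟩
  obtain ⟨e, he⟩ : ∃ e : V ≃ W, e z = z' :=
    ⟨e0.trans (Equiv.swap (e0 z) z'), by simp⟩
  refine ⟨⟨e, ?_⟩⟩
  intro u v
  rw [hz, hz', ← he]
  simp only [ne_eq, EmbeddingLike.apply_eq_iff_eq]

/-- the star with centre `0` -/
def starG (n : ℕ) : SimpleGraph (Fin (n + 1)) where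
  Adj a b := a ≠ b ∧ (a = 0 ∨ b = 0)
  symm := by
    constructor
    intro a b h
    exact ⟨h.1.symm, h.2.symm⟩
  loopless := by
    constructor
    intro a h
    exact h.1 rfl

theorem star_arrows {V : Type} [Fintype V] (T : SimpleGraph V) (z : V)
    (hz : ∀ u v : V, T.Adj u v ↔ u ≠ v ∧ (u = z ∨ v = z)) (q n : ℕ) (hq : 1 ≤ q)
    (hn : Fintype.card V = 1 ∨ q * (Fintype.card V - 2) < n) : Arrows (starG n) T q := by
  classical
  intro c hc
  obtain ⟨i, hi⟩ : ∃ i : Fin q, Fintype.card V - 1 ≤
      (Finset.univ.filter (fun a : Fin n => c 0 a.succ = i)).card := by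
    rcases hn with h | h
    · exact ⟨⟨0, hq⟩, by omega⟩
    · by_cases h1 : Fintype.card V ≤ 1
      · exact ⟨⟨0, hq⟩, by omega⟩
      · obtain ⟨i, hi⟩ := Fintype.exists_lt_card_fiber_of_mul_lt_card (fun a : Fin n => c 0 a.succ)
          (n := Fintype.card V - 2) (by simpa using h)
        exact ⟨i, by omega⟩
  obtain ⟨F, hF⟩ : ∃ F : Finset (Fin n), F = Finset.univ.filter (fun a : Fin n => c 0 a.succ = i) := ⟨_, rfl⟩
  rw [← hF] at hi
  have hFm : ∀ a ∈ F, c 0 a.succ = i := by
    intro a ha
    rw [hF, Finset.mem_filter] at ha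
    exact ha.2
  obtain ⟨e0⟩ : Nonempty (V ↪ Option F) := by
    apply Function.Embedding.nonempty_of_card_le
    rw [Fintype.card_option, Fintype.card_coe]
    omega
  obtain ⟨e, he, hez⟩ : ∃ e : V → Option F, Function.Injective e ∧ e z = none :=
    ⟨fun v => Equiv.swap (e0 z) none (e0 v), fun a b h => e0.injective ((Equiv.injective _) h), by simp⟩
  obtain ⟨k, hk⟩ : ∃ k : Option F → Fin (n + 1), k = fun o => o.elim 0 (fun a => a.1.succ) := ⟨_, rfl⟩
  have hk0 : k none = 0 := by rw [hk]; rfl
  have hk1 : ∀ a : F, k (some a) = a.1.succ := by intro a; rw [hk]; rfl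
  have hkinj : Function.Injective k := by
    intro a b h
    rcases a with _ | a <;> rcases b with _ | b
    · rfl
    · rw [hk0, hk1] at h
      exact absurd h.symm (Fin.succ_ne_zero _)
    · rw [hk0, hk1] at h
      exact absurd h (Fin.succ_ne_zero _)
    · rw [hk1, hk1, Fin.succ_inj] at h
      rw [Subtype.ext h]
  have hcol : ∀ v : V, v ≠ z → c 0 (k (e v)) = i := by
    intro v hv
    rcases ho : e v with _ | a
    · exact absurd (he (ho.trans hez.symm)) hv
    · rw [hk1]
      exact hFm a.1 a.2
  refine ⟨fun v => k (e v), fun a b h => he (hkinj h), ?_, i, ?_⟩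
  · intro u v huv
    rw [hz] at huv
    refine ⟨fun h => huv.1 (he (hkinj h)), ?_⟩
    rcases huv.2 with h | h
    · left
      show k (e u) = 0
      rw [h, hez, hk0]
    · right
      show k (e v) = 0
      rw [h, hez, hk0]
  · intro u v huv
    rw [hz] at huv
    show c (k (e u)) (k (e v)) = i
    rcases huv.2 with h | h
    · have h0 : k (e u) = 0 := by rw [h, hez, hk0]
      rw [h0]
      exact hcol v (fun hv => huv.1 (h.trans hv.symm))
    · have h0 : k (e v) = 0 := by rw [h, hez, hk0]
      rw [h0, hc]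
      exact hcol u (fun hu => huv.1 (hu.trans h.symm))

theorem star_not_arrows {W : Type} [Fintype W] (H : SimpleGraph W) (z : W)
    (hz : ∀ u v : W, H.Adj u v ↔ u ≠ v ∧ (u = z ∨ v = z)) (q d : ℕ) (hq : 1 ≤ q) (hd : 1 ≤ d)
    (hW : d + 2 ≤ Fintype.card W) : ¬ Arrows (starG (q * (d - 1) + 1)) H q := by
  classical
  intro hA
  obtain ⟨f, hf, hadj, i, hi⟩ := hA
    (fun a b => ⟨((max a b : Fin (q * (d - 1) + 1 + 1)).val - 1) % q, Nat.mod_lt _ hq⟩)
    (fun a b => by simp only [max_comm])
  have hcard : (Finset.univ.erase z).card = Fintype.card W - 1 := by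
    rw [Finset.card_erase_of_mem (Finset.mem_univ _), Finset.card_univ]
  have hz0 : f z = 0 := by
    by_contra hne
    have h1 : ∀ w ∈ Finset.univ.erase z, f w = 0 := by
      intro w hw
      have hwz : w ≠ z := (Finset.mem_erase.1 hw).1
      have := hadj z w ((hz z w).2 ⟨Ne.symm hwz, Or.inl rfl⟩)
      exact this.2.resolve_left hne
    obtain ⟨a, ha, b, hb, hab⟩ := Finset.one_lt_card.1 (show 1 < (Finset.univ.erase z).card by omega)
    exact hab (hf ((h1 a ha).trans (h1 b hb).symm))
  have hpos : ∀ w ∈ Finset.univ.erase z, 1 ≤ (f w).val := by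
    intro w hw
    have hwz : w ≠ z := (Finset.mem_erase.1 hw).1
    rw [Nat.one_le_iff_ne_zero]
    intro h
    apply hwz
    apply hf
    rw [hz0]
    exact Fin.ext h
  have hmod : ∀ w ∈ Finset.univ.erase z, ((f w).val - 1) % q = i.val := by
    intro w hw
    have hwz : w ≠ z := (Finset.mem_erase.1 hw).1
    have := hi z w ((hz z w).2 ⟨Ne.symm hwz, Or.inl rfl⟩)
    rw [hz0] at this
    have h2 := congrArg Fin.val this
    simp only [Fin.zero_le, max_eq_right] at h2
    exact h2
  have hmaps : ∀ w ∈ Finset.univ.erase z, ((f w).val - 1) / q ∈ Finset.range d := by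
    intro w hw
    rw [Finset.mem_range, Nat.div_lt_iff_lt_mul hq]
    have h1 := (f w).2
    have h2 := hpos w hw
    have h3 : d * q = q * (d - 1) + q := by
      obtain ⟨e, rfl⟩ : ∃ e, d = e + 1 := ⟨d - 1, by omega⟩
      rw [Nat.add_sub_cancel]
      ring
    omega
  obtain ⟨a, ha, b, hb, hab, he⟩ := Finset.exists_ne_map_eq_of_card_lt_of_maps_to
    (show (Finset.range d).card < (Finset.univ.erase z).card by rw [Finset.card_range]; omega) hmaps
  apply hab
  apply hf
  apply Fin.ext
  have h1 := hmod a ha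
  have h2 := hmod b hb
  have h3 := hpos a ha
  have h4 := hpos b hb
  have h5 := Nat.div_add_mod ((f a).val - 1) q
  have h6 := Nat.div_add_mod ((f b).val - 1) q
  rw [he, h1] at h5
  rw [h2] at h6
  omega

theorem star_sep {V W : Type} [Fintype V] [Fintype W] (T : SimpleGraph V) (H : SimpleGraph W) (z : V)
    (hz : ∀ u v : V, T.Adj u v ↔ u ≠ v ∧ (u = z ∨ v = z)) (z' : W)
    (hz' : ∀ u v : W, H.Adj u v ↔ u ≠ v ∧ (u = z' ∨ v = z')) (q : ℕ) (hq : 1 ≤ q)
    (hlt : Fintype.card V < Fintype.card W) :
    ∃ (n : ℕ) (G : SimpleGraph (Fin n)), Arrows G T q ∧ ¬ Arrows G H q := by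
  classical
  have hV : 1 ≤ Fintype.card V := Fintype.card_pos_iff.2 ⟨z⟩
  rcases Nat.lt_or_ge (Fintype.card V) 2 with h | h
  · refine ⟨0 + 1, starG 0, star_arrows T z hz q 0 hq (Or.inl (by omega)), ?_⟩
    intro hA
    obtain ⟨f, hf, -⟩ := hA (fun _ _ => ⟨0, hq⟩) (fun _ _ => rfl)
    have := Fintype.card_le_of_injective f hf
    rw [Fintype.card_fin] at this
    omega
  · obtain ⟨d, hd⟩ : ∃ d, Fintype.card V = d + 1 := ⟨Fintype.card V - 1, by omega⟩
    refine ⟨q * (d - 1) + 1 + 1, starG (q * (d - 1) + 1), star_arrows T z hz q _ hq (Or.inr ?_),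
      star_not_arrows H z' hz' q d hq (by omega) (by omega)⟩
    have h1 : Fintype.card V - 2 = d - 1 := by omega
    rw [h1]
    omega

theorem star_iso {V W : Type} [Fintype V] [Fintype W] (T : SimpleGraph V) (H : SimpleGraph W)
    (hT : T.Connected) (hH : H.Connected) (h1 : Side T 1) (h2 : Side H 1) (q : ℕ) (hq : 1 ≤ q)
    (h : Equivalent q T H) : Nonempty (T ≃g H) := by
  obtain ⟨z, hz⟩ := star_centre T hT h1
  obtain ⟨z', hz'⟩ := star_centre H hH h2
  rcases lt_trichotomy (Fintype.card V) (Fintype.card W) with hlt | heq | hlt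
  · obtain ⟨n, G, a, b⟩ := star_sep T H z hz z' hz' q hq hlt
    exact absurd ((h n G).1 a) b
  · exact star_iso_of_card T H z hz z' hz' heq
  · obtain ⟨n, G, a, b⟩ := star_sep H T z' hz' z hz q hq hlt
    exact absurd ((h n G).2 a) b

end Pool.Agent.H32.SQ
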