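import Pool.Agent.H32.SQ.A3
import Pool.Agent.H32.SQ.A4
import Pool.Agent.H32.SQ.A5
import Pool.Agent.H32.SQ.A7

set_option autoImplicit false

namespace Pool.Agent.H32.SQ

open Pool.Agent.H32.IP

theorem emb_refl {V : Type} (T : SimpleGraph V) : Emb T T := ⟨id, fun _ _ h => h, fun _ _ h => h⟩

theorem emb_trans {V W U : Type} {T : SimpleGraph V} {H : SimpleGraph W} {B : SimpleGraph U}
    (h1 : Emb T H) (h2 : Emb H B) : Emb T B := by
  obtain ⟨f, hf, hf'⟩ := h1
  obtain ⟨g, hg, hg'⟩ := h2
  exact ⟨fun x => g (f x), fun x y h => hf (hg h), fun u v h => hg' _ _ (hf' _ _ h)⟩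

theorem side_mono {W : Type} {H : SimpleGraph W} {s t : ℕ} (hst : s ≤ t) (h : Side H s) : Side H t := by
  obtain ⟨S, hS, hS'⟩ := h
  exact ⟨S, hS.trans hst, hS'⟩

theorem edge_of_not_side {W : Type} {H : SimpleGraph W} {s : ℕ} (h : ¬ Side H s) :
    ∃ x y, H.Adj x y := by
  by_contra hcon
  push Not at hcon
  exact h ⟨∅, by simp, fun u v huv => absurd huv (hcon u v)⟩

theorem equiv_symm {V W : Type} {q : ℕ} {T : SimpleGraph V} {H : SimpleGraph W}
    (h : Equivalent q T H) : Equivalent q H T := fun n G => (h n G).symm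

/-- the smaller side is an invariant -/
theorem side_of_equivalent {V W : Type} [Fintype V] [Fintype W] (q s : ℕ) (hq : 1 ≤ q)
    (T : SimpleGraph V) (H : SimpleGraph W) (h : Equivalent q T H) (hH : Side H s) : Side T s := by
  by_contra hT
  obtain ⟨N, hN⟩ := bip_arrows q s hq H hH
  exact bip_not q s N hq T hT ((equivalent_fintype q T H h _ _).2 hN)

theorem isolated (q M : ℕ) (hq : 1 ≤ q) (V W : Type) [Fintype V] [Fintype W] (T : SimpleGraph V)
    (H : SimpleGraph W) (hTc : T.Connected) (hHc : H.Connected) (hT : Emb T (spider M))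
    (h : Equivalent q T H) : Nonempty (T ≃g H) := by
  classical
  obtain ⟨r, rfl⟩ : ∃ r, q = r + 1 := ⟨q - 1, by omega⟩
  have hex : ∃ s, Side T s := ⟨M + 1, side_of_emb T (spider M) hT _ (side_spider M)⟩
  set s := Nat.find hex with hsdef
  have hs : Side T s := Nat.find_spec hex
  rcases Nat.lt_or_ge s 2 with hlt | hge
  · have h1 : Side T 1 := side_mono (by omega) hs
    exact star_iso T H hTc hHc h1 (side_of_equivalent _ 1 hq H T (equiv_symm h) h1) _ hq h
  · obtain ⟨σ, hσ⟩ : ∃ σ, s = σ + 1 := ⟨s - 1, by omega⟩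
    have hσ1 : 1 ≤ σ := by omega
    have hTσ : ¬ Side T σ := Nat.find_min hex (by omega)
    have hHσ : ¬ Side H σ := fun hcon => hTσ (side_of_equivalent _ σ hq T H h hcon)
    have hTs : Side T (σ + 1) := hσ ▸ hs
    -- `H` is contained in `T`
    have hHT : Emb H T := by
      by_contra hcon
      obtain ⟨N, hN⟩ := gd_arrows r σ M hσ1 T hT hTs T hTc (edge_of_not_side hTσ) (emb_refl T)
      exact gd_not r σ N T H hHc hHσ hcon ((equivalent_fintype _ T H h _ _).1 hN)
    have hHs : Side H (σ + 1) := side_of_emb H T hHT _ hTs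
    -- `T` is contained in `H`
    have hTH : Emb T H := by
      by_contra hcon
      obtain ⟨N, hN⟩ := gd_arrows r σ M hσ1 H (emb_trans hHT hT) hHs H hHc (edge_of_not_side hHσ)
        (emb_refl H)
      exact gd_not r σ N H T hTc hTσ hcon ((equivalent_fintype _ T H h _ _).2 hN)
    exact iso_of_emb T H hTH hHT

end Pool.Agent.H32.SQ
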