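import Pool.Agent.H32.SQ.Df

set_option autoImplicit false

namespace Pool.Agent.H32.SQ

open Pool.Agent.H32.IP

/-- The complete bipartite graph with sides `a` and `M`, with one pendant edge at each vertex of the second side:
`inl u` is adjacent to all `inr (j, false)`, and `inr (j, false)` is adjacent to `inr (j, true)`. -/
def kp (a M : ℕ) : SimpleGraph (Fin a ⊕ (Fin M × Bool)) where
  Adj x y := match x, y with
    | Sum.inl _, Sum.inl _ => False
    | Sum.inl _, Sum.inr b => b.2 = false
    | Sum.inr b, Sum.inl _ => b.2 = false
    | Sum.inr b, Sum.inr b' => b.1 = b'.1 ∧ b.2 ≠ b'.2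
  symm := by
    constructor
    intro x y h
    rcases x with x | x <;> rcases y with y | y
    · exact h
    · exact h
    · exact h
    · exact ⟨h.1.symm, h.2.symm⟩
  loopless := by
    constructor
    intro x h
    rcases x with x | x
    · exact h
    · exact h.2 rfl

end Pool.Agent.H32.SQ
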