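import Pool.Agent.H32.SQ.B0

set_option autoImplicit false

namespace Pool.Agent.H32.SQ

open Pool.Agent.H32.IP

/- (1) the fibres of `A` have together `r * s` elements. If `i ≠ j`, the other `r - 1` colours have at most
`(r - 1) * s` elements and `i, j` at most `2 (a - 1)`, so `r s ≤ (r - 1) s + 2 (a - 1)`, `s ≤ 2 a - 2 < s`:
contradiction (`r ≥ 1` because `Fin (r + 1)` has two different elements). (2) the side of `kp a M`: the `inl u` and the
`inr (j, true)`. -/

theorem open_unique (r s a : ℕ) (ha : 1 ≤ a) (has : 2 * a ≤ s + 1) (A : Fin r × Fin s → Fin (r + 1))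
    (hA : ∀ i, (Finset.univ.filter (fun u => A u = i)).card ≤ s) (i j : Fin (r + 1))
    (hi : (Finset.univ.filter (fun u => A u = i)).card < a)
    (hj : (Finset.univ.filter (fun u => A u = j)).card < a) : i = j := by
  by_contra hij
  have hsum : ∑ k : Fin (r + 1), (Finset.univ.filter (fun u => A u = k)).card = r * s := by
    have h1 := Finset.card_eq_sum_card_fiberwise (f := A) (s := Finset.univ) (t := Finset.univ)
      (fun x _ => by simp)
    rw [← h1, Finset.card_univ, Fintype.card_prod, Fintype.card_fin, Fintype.card_fin]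
  have h2 : ∑ k : Fin (r + 1), (Finset.univ.filter (fun u => A u = k)).card =
      (Finset.univ.filter (fun u => A u = i)).card + ((Finset.univ.filter (fun u => A u = j)).card +
        ∑ k ∈ (Finset.univ.erase i).erase j, (Finset.univ.filter (fun u => A u = k)).card) := by
    rw [← Finset.add_sum_erase Finset.univ _ (Finset.mem_univ i),
      ← Finset.add_sum_erase (Finset.univ.erase i) _
        (Finset.mem_erase.2 ⟨fun h => hij h.symm, Finset.mem_univ j⟩)]
  have h3 : ∑ k ∈ (Finset.univ.erase i).erase j, (Finset.univ.filter (fun u => A u = k)).card ≤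
      ((Finset.univ.erase i).erase j).card * s := by
    have := Finset.sum_le_card_nsmul ((Finset.univ.erase i).erase j)
      (fun k => (Finset.univ.filter (fun u => A u = k)).card) s (fun k _ => hA k)
    simpa [smul_eq_mul] using this
  have h4 : ((Finset.univ.erase i).erase j : Finset (Fin (r + 1))).card = r - 1 := by
    rw [Finset.card_erase_of_mem (Finset.mem_erase.2 ⟨fun h => hij h.symm, Finset.mem_univ j⟩),
      Finset.card_erase_of_mem (Finset.mem_univ i), Finset.card_univ, Fintype.card_fin]
    rfl
  rw [h4] at h3
  have hr : 1 ≤ r := by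
    by_contra h0
    have h1 := i.isLt
    have h2 := j.isLt
    exact hij (Fin.ext (by omega))
  obtain ⟨r', rfl⟩ : ∃ r', r = r' + 1 := ⟨r - 1, by omega⟩
  have h5 : (r' + 1) * s = r' * s + s := by ring
  simp only [Nat.add_sub_cancel] at h3
  omega

theorem side_kp (a M : ℕ) : Side (kp a M) (a + M) := by
  classical
  refine ⟨(Finset.univ.image (Sum.inl : Fin a → Fin a ⊕ (Fin M × Bool))) ∪
    (Finset.univ.image (fun j : Fin M => (Sum.inr (j, true) : Fin a ⊕ (Fin M × Bool)))), ?_, ?_⟩
  · refine (Finset.card_union_le _ _).trans ?_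
    refine Nat.add_le_add ?_ ?_
    · exact Finset.card_image_le.trans (by simp)
    · exact Finset.card_image_le.trans (by simp)
  · intro u v h
    rcases u with x | ⟨x, b⟩ <;> rcases v with y | ⟨y, b'⟩
    · exact h.elim
    · have h' : b' = false := h
      subst h'
      simp
    · have h' : b = false := h
      subst h'
      simp
    · have h' : x = y ∧ b ≠ b' := h
      obtain ⟨h1, h2⟩ := h'
      subst h1
      cases b <;> cases b' <;> simp at h2 ⊢

end Pool.Agent.H32.SQ
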