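import Pool.Agent.H32.SQ.B0

set_option autoImplicit false

namespace Pool.Agent.H32.SQ

open Pool.Agent.H32.IP

/- Proof (compare `mono_spider` in `A2.lean`): `T` embeds in `kp a M`, `M ≤ m`; map `inl u` injectively into the set `U`
of `a` hub vertices, `inr (j, false)` to `inr (g j, x)` and `inr (j, true)` to `inr (g j, y)` (`x ≠ y` as `B.Adj x y`). -/

theorem mono_kp {V W : Type} (r s N m M a : ℕ) (B : SimpleGraph V) (T : SimpleGraph W) {q : ℕ}
    (c : ((Fin r × Fin s) ⊕ (Fin N × V)) → ((Fin r × Fin s) ⊕ (Fin N × V)) → Fin q)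
    (hc : ∀ a b, c a b = c b a) (g : Fin m → Fin N) (hg : Function.Injective g) (hm : M ≤ m)
    (hT : Emb T (kp a M)) (x y : V) (hxy : B.Adj x y) (i : Fin q) (U : Finset (Fin r × Fin s))
    (hU : a ≤ U.card) (h1 : ∀ u ∈ U, ∀ j, c (Sum.inl u) (Sum.inr (g j, x)) = i)
    (h2 : ∀ j, c (Sum.inr (g j, x)) (Sum.inr (g j, y)) = i) : Mono (gd r s N B) c T i := by
  classical
  obtain ⟨e, he, hadj⟩ := hT
  have hne : x ≠ y := hxy.ne
  let φ : Fin a → Fin r × Fin s := fun u => (U.equivFin.symm (Fin.castLE hU u)).1
  have hφ : Function.Injective φ := by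
    intro u v huv
    have h3 := U.equivFin.symm.injective (Subtype.ext huv)
    exact Fin.castLE_injective hU h3
  have hφU : ∀ u, φ u ∈ U := fun u => (U.equivFin.symm (Fin.castLE hU u)).2
  let G : Fin M → Fin N := fun j => g (Fin.castLE hm j)
  have hG : Function.Injective G := fun j k hjk => Fin.castLE_injective hm (hg hjk)
  let F : Fin a ⊕ (Fin M × Bool) → (Fin r × Fin s) ⊕ (Fin N × V) := fun p =>
    match p with
    | Sum.inl u => Sum.inl (φ u)
    | Sum.inr b => Sum.inr (G b.1, if b.2 = true then y else x)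
  have hF : Function.Injective F := by
    rintro (u | ⟨j, b⟩) (v | ⟨k, b'⟩) h
    · exact congrArg Sum.inl (hφ (Sum.inl.inj h))
    · exact absurd h Sum.inl_ne_inr
    · exact absurd h Sum.inr_ne_inl
    · have h3 := Sum.inr.inj h
      have h4 : j = k := hG (congrArg Prod.fst h3)
      have h5 : (if b = true then y else x) = (if b' = true then y else x) := congrArg Prod.snd h3
      have h6 : b = b' := by
        cases b <;> cases b'
        · rfl
        · simp only [Bool.false_eq_true, if_false, if_true] at h5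
          exact absurd h5 hne
        · simp only [Bool.false_eq_true, if_false, if_true] at h5
          exact absurd h5.symm hne
        · rfl
      rw [h4, h6]
  have hFa : ∀ p p', (kp a M).Adj p p' →
      (gd r s N B).Adj (F p) (F p') ∧ c (F p) (F p') = i := by
    rintro (u | ⟨j, b⟩) (v | ⟨k, b'⟩) h
    · exact absurd h id
    · have h3 : b' = false := h
      subst h3
      exact ⟨trivial, h1 _ (hφU u) _⟩
    · have h3 : b = false := h
      subst h3
      exact ⟨trivial, by rw [hc]; exact h1 _ (hφU v) _⟩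
    · obtain ⟨h3, h4⟩ := h
      have h3' : j = k := h3
      have h4' : b ≠ b' := h4
      subst h3'
      cases b <;> cases b'
      · exact absurd rfl h4'
      · exact ⟨⟨rfl, hxy⟩, h2 _⟩
      · exact ⟨⟨rfl, hxy.symm⟩, by rw [hc]; exact h2 _⟩
      · exact absurd rfl h4'
  exact ⟨fun w => F (e w), fun w w' h => he (hF h), fun u v h => (hFa _ _ (hadj u v h)).1,
    fun u v h => (hFa _ _ (hadj u v h)).2⟩

end Pool.Agent.H32.SQ
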