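import Pool.Agent.H32.SQ.A1
import Pool.Agent.H32.SQ.A2
import Pool.Agent.H32.SQ.B1
import Pool.Agent.H32.SQ.B2

set_option autoImplicit false

namespace Pool.Agent.H32.SQ

open Pool.Agent.H32.IP

/- Proof (a variant of `A3.lean`, `gd_arrows`): let `m = max M (|W|) + 1` and `P` the type of the pairs of a colouring
of the hub - `V` pairs and a colouring `V → V → Fin (r + 1)`; `N` from `pattern`. Given `c`, `pattern` gives
`g : Fin m → Fin N` such that `c (inl u) (inr (g j, x)) = A u x` and `c (inr (g j, x)) (inr (g j, y)) = C x y` for all `j`.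
Suppose there is no monochromatic `T`. Fix `x`. By `mono_side` with `U` a set of `s + 1` elements `u` with `A u x = i` each
colour occurs at most `s` times among the `A u x`. By `mono_kp` a colour that occurs at least `a` times among
the `A u x` is not the colour `C x y` of an edge `x y` of `B`. So the colours of all edges at `x` occur less than `a` times
among the `A u x`, and by `open_unique` they are all equal. As `B` is connected and `C` is symmetric, all
edges of `B` have the same colour `i`; `mono_copy` for the copy `g 0`. Contradiction. -/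

theorem gd_arrows' {V W : Type} [Fintype V] [Fintype W] (r s a M : ℕ) (ha : 1 ≤ a)
    (has : 2 * a ≤ s + 1) (T : SimpleGraph W) (hT : Emb T (kp a M)) (hT2 : Side T (s + 1))
    (B : SimpleGraph V) (hB : B.Connected) (hE : ∃ x y, B.Adj x y) (hTB : Emb T B) :
    ∃ N : ℕ, Arrows (gd r s N B) T (r + 1) := by
  classical
  obtain ⟨m, hm⟩ : ∃ m, m = max M (Fintype.card W) + 1 := ⟨_, rfl⟩
  have hmM : M ≤ m := by
    rw [hm]
    exact (le_max_left _ _).trans (Nat.le_succ _)
  have hmW : Fintype.card W ≤ m := by
    rw [hm]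
    exact (le_max_right _ _).trans (Nat.le_succ _)
  have hm0 : 0 < m := by
    rw [hm]
    exact Nat.succ_pos _
  obtain ⟨N, hN, hpat⟩ :=
    pattern (P := ((Fin r × Fin s → V → Fin (r + 1)) × (V → V → Fin (r + 1)))) m
  refine ⟨N, ?_⟩
  intro c hc
  by_contra hno
  have hno' : ∀ i, ¬ Mono (gd r s N B) c T i := by
    rintro i ⟨f, h1, h2, h3⟩
    exact hno ⟨f, h1, h2, i, h3⟩
  obtain ⟨g, p, hg, hp⟩ := hpat (fun n => (fun u x => c (Sum.inl u) (Sum.inr (n, x)),
    fun x y => c (Sum.inr (n, x)) (Sum.inr (n, y))))
  obtain ⟨A, C⟩ := p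
  have hA : ∀ u x j, c (Sum.inl u) (Sum.inr (g j, x)) = A u x := by
    intro u x j
    have h1 := congrArg Prod.fst (hp j)
    exact congrFun (congrFun h1 u) x
  have hC : ∀ x y j, c (Sum.inr (g j, x)) (Sum.inr (g j, y)) = C x y := by
    intro x y j
    have h1 := congrArg Prod.snd (hp j)
    exact congrFun (congrFun h1 x) y
  have hCs : ∀ x y, C x y = C y x := by
    intro x y
    rw [← hC x y ⟨0, hm0⟩, hc, hC]
  have hcount : ∀ x i, (Finset.univ.filter (fun u => A u x = i)).card ≤ s := by
    intro x i
    by_contra hgt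
    have hgt' : s + 1 ≤ (Finset.univ.filter (fun u => A u x = i)).card := by omega
    obtain ⟨U, hU1, hU2⟩ := Finset.exists_subset_card_eq hgt'
    apply hno' i
    refine mono_side r s N m B T c hc g hg hmW x i U (by rw [hU2]; exact hT2) ?_
    intro u hu j
    rw [hA]
    exact (Finset.mem_filter.1 (hU1 hu)).2
  have hfew : ∀ x y, B.Adj x y → (Finset.univ.filter (fun u => A u x = C x y)).card < a := by
    intro x y hxy
    by_contra hge
    have hge' : a ≤ (Finset.univ.filter (fun u => A u x = C x y)).card := by omega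
    apply hno' (C x y)
    refine mono_kp r s N m M a B T c hc g hg hmM hT x y hxy (C x y) _ hge' ?_ ?_
    · intro u hu j
      rw [hA]
      exact (Finset.mem_filter.1 hu).2
    · intro j
      exact hC x y j
  have hsame : ∀ x y z, B.Adj x y → B.Adj x z → C x y = C x z := by
    intro x y z hy hz
    exact open_unique r s a ha has (fun u => A u x) (hcount x) _ _ (hfew x y hy) (hfew x z hz)
  obtain ⟨x0, y0, h0⟩ := hE
  have hall : ∀ x, ∀ y, B.Adj x y → C x y = C x0 y0 := by
    intro x
    have hr : Relation.ReflTransGen B.Adj x0 x :=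
      (SimpleGraph.reachable_iff_reflTransGen x0 x).1 (hB.preconnected x0 x)
    induction hr with
    | refl => intro y hy; exact hsame x0 y y0 hy h0
    | tail _ hbc ih =>
      intro y hy
      rw [hsame _ y _ hy hbc.symm, hCs]
      exact ih _ hbc
  exact hno' (C x0 y0) (mono_copy r s N B T c hTB (g ⟨0, hm0⟩) (C x0 y0) (by
    intro x y hxy
    rw [hC]
    exact hall x y hxy))

end Pool.Agent.H32.SQ
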