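import Pool.Agent.H32.IP.FT

/-!
Subdivided stars are isolated in multicolour graph Ramsey theory: definitions for the project MP_b356f0_SQ.
-/

set_option autoImplicit false

namespace Pool.Agent.H32.SQ

open Pool.Agent.H32.IP

/-- `H` is isomorphic to a (not necessarily induced) subgraph of `B`. -/
def Emb {W V : Type} (H : SimpleGraph W) (B : SimpleGraph V) : Prop :=
  ∃ f : W → V, Function.Injective f ∧ ∀ u v : W, H.Adj u v → B.Adj (f u) (f v)

/-- The spider with `M` legs of length two: the centre `none` is adjacent to all `(j, false)`, and `(j, false)` is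
adjacent to `(j, true)`. -/
def spider (M : ℕ) : SimpleGraph (Option (Fin M × Bool)) where
  Adj x y := match x, y with
    | none, some b => b.2 = false
    | some a, none => a.2 = false
    | some a, some b => a.1 = b.1 ∧ a.2 ≠ b.2
    | none, none => False
  symm := by
    constructor
    intro x y h
    rcases x with _ | x <;> rcases y with _ | y
    · exact h
    · exact h
    · exact h
    · exact ⟨h.1.symm, h.2.symm⟩
  loopless := by
    constructor
    intro x h
    rcases x with _ | x
    · exact h
    · exact h.2 rfl

/-- `H` is bipartite with one side `S` of at most `s` vertices (`H` is contained in a complete bipartite graph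
with `s` vertices on one side). -/
def Side {W : Type} (H : SimpleGraph W) (s : ℕ) : Prop :=
  ∃ S : Finset W, S.card ≤ s ∧ ∀ u v : W, H.Adj u v → (u ∈ S ↔ v ∉ S)

/-- The gadget: `r` groups of `s` hub vertices, joined to all vertices of `N` disjoint copies of `B`. -/
def gd {V : Type} (r s N : ℕ) (B : SimpleGraph V) : SimpleGraph ((Fin r × Fin s) ⊕ (Fin N × V)) where
  Adj x y := match x, y with
    | Sum.inl _, Sum.inl _ => False
    | Sum.inl _, Sum.inr _ => True
    | Sum.inr _, Sum.inl _ => True
    | Sum.inr a, Sum.inr b => a.1 = b.1 ∧ B.Adj a.2 b.2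
  symm := by
    constructor
    intro x y h
    rcases x with x | x <;> rcases y with y | y
    · exact h
    · exact h
    · exact h
    · exact ⟨h.1.symm, h.2.symm⟩
  loopless := by
    constructor
    intro x h
    rcases x with x | x
    · exact h
    · exact B.loopless.irrefl _ h.2

/-- There is a copy of `T` in `G` all of whose edges have colour `i`. -/
def Mono {V W : Type} {q : ℕ} (G : SimpleGraph V) (c : V → V → Fin q) (T : SimpleGraph W) (i : Fin q) : Prop :=
  ∃ f : W → V, Function.Injective f ∧ (∀ u v : W, T.Adj u v → G.Adj (f u) (f v)) ∧
    ∀ u v : W, T.Adj u v → c (f u) (f v) = i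

end Pool.Agent.H32.SQ
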